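import Pool.Agent.Helper15.NL.SuppFn

/-!
Planar Doignon step, first part.  `K ⊂ ℝ³` a symmetric convex body without lattice points of height
one.  A finite tight family of integer half spaces `P i ⬝ x ≥ N i` (`W (P i) < N i`, so they miss
`K`) which covers the lattice points of height one; tightness: points `x i` with
`P i ⬝ x i = N i`, `P j ⬝ x i < N j` for `j ≠ i`; the `x i` are incongruent modulo two, so there are
at most four of them.
-/

namespace Helper67.NP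

open Matrix Set Helper31.Ewald Helper15.NL

variable {K : Set (Fin 3 → ℝ)} {W : (Fin 3 → ℝ) → ℝ}

/-- a covering family -/
def Cov (W : (Fin 3 → ℝ) → ℝ) {m : ℕ} (P : Fin m → Fin 3 → ℤ) (N : Fin m → ℤ) : Prop :=
  (∀ i, W (toR (P i)) < N i) ∧ ∀ z : Fin 3 → ℤ, z 2 = 1 → ∃ i, N i ≤ P i ⬝ᵥ z

private theorem bdd (hK : SBody K) : ∃ R : ℝ, 0 ≤ R ∧ ∀ x ∈ K, ∀ i, |x i| ≤ R := by
  obtain ⟨R, hR⟩ := hK.compact.isBounded.exists_norm_le
  refine ⟨max R 0, le_max_right _ _, fun x hx i => ?_⟩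
  exact (norm_le_pi_norm x i).trans ((hR x hx).trans (le_max_left _ _))

/-- integral separation of a lattice point from `K` -/
theorem sep_point (hK : SBody K) (hW : Supp K W) (z : Fin 3 → ℤ) (hz : toR z ∉ K) :
    ∃ P : Fin 3 → ℤ, W (toR P) < ((P ⬝ᵥ z : ℤ) : ℝ) := by
  obtain ⟨R, hR0, hR⟩ := bdd hK
  have h1 : ∃ y : Fin 3 → ℝ, W y < y ⬝ᵥ toR z := by
    by_contra hcon
    push Not at hcon
    exact hz (hW.mem hK hcon)
  obtain ⟨y, hy⟩ := h1
  set D : ℝ := ∑ i, |(z i : ℝ)| with hD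
  obtain ⟨M, hM⟩ := exists_nat_gt ((3 * R + D) / (y ⬝ᵥ toR z - W y))
  have hpos : 0 < y ⬝ᵥ toR z - W y := by linarith
  rw [div_lt_iff₀ hpos] at hM
  refine ⟨fun i => ⌊(M : ℝ) * y i⌋, ?_⟩
  rw [← toR_dot]
  set P : Fin 3 → ℤ := fun i => ⌊(M : ℝ) * y i⌋ with hP
  obtain ⟨x, hx, hxe⟩ := hW.att (toR P)
  have hfr : ∀ i, 0 ≤ (M : ℝ) * y i - toR P i ∧ (M : ℝ) * y i - toR P i ≤ 1 := by
    intro i
    have h1 := Int.floor_le ((M : ℝ) * y i)
    have h2 := Int.lt_floor_add_one ((M : ℝ) * y i)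
    constructor
    · show 0 ≤ (M : ℝ) * y i - ((⌊(M : ℝ) * y i⌋ : ℤ) : ℝ)
      linarith
    · show (M : ℝ) * y i - ((⌊(M : ℝ) * y i⌋ : ℤ) : ℝ) ≤ 1
      linarith
  have hb : ∀ v : Fin 3 → ℝ, |(M : ℝ) * (y ⬝ᵥ v) - toR P ⬝ᵥ v| ≤ ∑ i, |v i| := by
    intro v
    have h1 : (M : ℝ) * (y ⬝ᵥ v) - toR P ⬝ᵥ v = ∑ i, ((M : ℝ) * y i - toR P i) * v i := by
      unfold dotProduct
      rw [Finset.mul_sum, ← Finset.sum_sub_distrib]
      refine Finset.sum_congr rfl fun i _ => ?_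
      ring
    rw [h1]
    refine (Finset.abs_sum_le_sum_abs _ _).trans (Finset.sum_le_sum fun i _ => ?_)
    rw [abs_mul, abs_of_nonneg (hfr i).1]
    exact mul_le_of_le_one_left (abs_nonneg _) (hfr i).2
  have h2 := hb x
  have h3 := hb (toR z)
  have h4 : ∑ i, |x i| ≤ 3 * R := by
    have : ∑ i, |x i| ≤ ∑ _i : Fin 3, R := Finset.sum_le_sum fun i _ => hR x hx i
    simpa using this
  have h5 : ∑ i, |toR z i| = D := rfl
  have h6 := hW.le y x hx
  have h7 : (0 : ℝ) ≤ M := Nat.cast_nonneg M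
  have h8 := mul_le_mul_of_nonneg_left h6 h7
  rw [← hxe]
  have h9 := (abs_le.1 h2).1
  have h10 := (abs_le.1 h3).2
  nlinarith

theorem exists_cov (hK : SBody K) (hW : Supp K W)
    (h1 : ∀ x : Fin 3 → ℤ, toR x ∈ K → x 2 ≠ 1) :
    ∃ (m : ℕ) (P : Fin m → Fin 3 → ℤ) (N : Fin m → ℤ), Cov W P N := by
  classical
  -- the family as a finite set
  have hs : ∃ s : Finset ((Fin 3 → ℤ) × ℤ), (∀ q ∈ s, W (toR q.1) < q.2) ∧
      ∀ z : Fin 3 → ℤ, z 2 = 1 → ∃ q ∈ s, q.2 ≤ q.1 ⬝ᵥ z := by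
    let B : Fin 4 → Fin 3 → ℤ := ![![1, 0, 0], ![-1, 0, 0], ![0, 1, 0], ![0, -1, 0]]
    let c : Fin 4 → ℤ := fun a => ⌊W (toR (B a))⌋ + 1
    have hc : ∀ a, W (toR (B a)) < c a := by
      intro a
      have := Int.lt_floor_add_one (W (toR (B a)))
      show W (toR (B a)) < ((⌊W (toR (B a))⌋ + 1 : ℤ) : ℝ)
      push_cast
      exact this
    have hF : {z : Fin 3 → ℤ | z 2 = 1 ∧ ∀ a, B a ⬝ᵥ z < c a}.Finite := by
      apply (Set.finite_Icc (![-c 1, -c 3, 1] : Fin 3 → ℤ) ![c 0, c 2, 1]).subset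
      rintro z ⟨hz, ha⟩
      have a0 := ha 0
      have a1 := ha 1
      have a2 := ha 2
      have a3 := ha 3
      simp [B, dotProduct, Fin.sum_univ_three] at a0 a1 a2 a3
      constructor
      · intro i
        fin_cases i
        · show -c 1 ≤ z 0
          linarith
        · show -c 3 ≤ z 1
          linarith
        · show 1 ≤ z 2
          exact hz.ge
      · intro i
        fin_cases i
        · show z 0 ≤ c 0
          linarith
        · show z 1 ≤ c 2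
          linarith
        · show z 2 ≤ 1
          exact hz.le
    choose! p hp using fun (z : Fin 3 → ℤ) (hz : z 2 = 1) =>
      sep_point hK hW z (fun h => h1 z h hz)
    refine ⟨Finset.univ.image (fun a => (B a, c a)) ∪
      hF.toFinset.image (fun z => (p z, p z ⬝ᵥ z)), ?_, ?_⟩
    · intro q hq
      rcases Finset.mem_union.1 hq with hq | hq
      · obtain ⟨a, -, rfl⟩ := Finset.mem_image.1 hq
        exact hc a
      · obtain ⟨z, hz, rfl⟩ := Finset.mem_image.1 hq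
        rw [Set.Finite.mem_toFinset] at hz
        exact hp z hz.1
    · intro z hz
      by_cases ha : ∀ a, B a ⬝ᵥ z < c a
      · refine ⟨(p z, p z ⬝ᵥ z), Finset.mem_union_right _ (Finset.mem_image.2 ⟨z, ?_, rfl⟩), le_rfl⟩
        rw [Set.Finite.mem_toFinset]
        exact ⟨hz, ha⟩
      · push Not at ha
        obtain ⟨a, ha⟩ := ha
        exact ⟨(B a, c a), Finset.mem_union_left _ (Finset.mem_image.2 ⟨a, Finset.mem_univ _, rfl⟩),
          ha⟩
  obtain ⟨s, hs1, hs2⟩ := hs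
  refine ⟨s.card, fun i => (s.equivFin.symm i).1.1, fun i => (s.equivFin.symm i).1.2, ?_, ?_⟩
  · intro i
    exact hs1 _ (s.equivFin.symm i).2
  · intro z hz
    obtain ⟨q, hq, hqz⟩ := hs2 z hz
    refine ⟨s.equivFin ⟨q, hq⟩, ?_⟩
    simpa using hqz

/-- a family with the minimal number of members: every member is needed -/
theorem exists_min_cov (hK : SBody K) (hW : Supp K W)
    (h1 : ∀ x : Fin 3 → ℤ, toR x ∈ K → x 2 ≠ 1) :
    ∃ (m : ℕ) (P : Fin m → Fin 3 → ℤ) (N : Fin m → ℤ), Cov W P N ∧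
      ∀ N' : Fin m → ℤ, Cov W P N' → ∀ i, ∃ z : Fin 3 → ℤ, z 2 = 1 ∧ ∀ j, j ≠ i → P j ⬝ᵥ z < N' j := by
  classical
  have hex := exists_cov hK hW h1
  obtain ⟨P, N, hc⟩ := Nat.find_spec hex
  refine ⟨Nat.find hex, P, N, hc, ?_⟩
  intro N' hN' i
  by_contra hcon
  push Not at hcon
  have hmin : ∀ m' < Nat.find hex, ∀ (P' : Fin m' → Fin 3 → ℤ) (N'' : Fin m' → ℤ), ¬ Cov W P' N'' :=
    fun m' hm' P' N'' h => Nat.find_min hex hm' ⟨P', N'', h⟩
  generalize Nat.find hex = m at *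
  obtain _ | m := m
  · exact i.elim0
  · apply hmin m (Nat.lt_succ_self m) (fun j => P (i.succAbove j)) (fun j => N' (i.succAbove j))
    refine ⟨fun j => hN'.1 _, fun z hz => ?_⟩
    obtain ⟨j, hj, hjz⟩ := hcon z hz
    obtain ⟨j', rfl⟩ := Fin.exists_succAbove_eq hj
    exact ⟨j', hjz⟩

theorem push {m : ℕ} {P : Fin m → Fin 3 → ℤ} {N : Fin m → ℤ} (hc : Cov W P N)
    (hmin : ∀ N' : Fin m → ℤ, Cov W P N' →
      ∀ i, ∃ z : Fin 3 → ℤ, z 2 = 1 ∧ ∀ j, j ≠ i → P j ⬝ᵥ z < N' j) (k : ℕ) :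
    k ≤ m → ∃ (N' : Fin m → ℤ) (x : Fin m → Fin 3 → ℤ), Cov W P N' ∧
      ∀ i : Fin m, i.val < k → x i 2 = 1 ∧ P i ⬝ᵥ x i = N' i ∧ ∀ j, j ≠ i → P j ⬝ᵥ x i < N' j := by
  classical
  induction k with
  | zero => exact fun _ => ⟨N, fun _ => 0, hc, fun i hi => absurd hi (Nat.not_lt_zero _)⟩
  | succ k ih =>
    intro hk
    obtain ⟨N', x, hc', hx⟩ := ih (Nat.le_of_succ_le hk)
    set i : Fin m := ⟨k, hk⟩ with hi
    have hA : ∃ n : ℕ, ∃ z : Fin 3 → ℤ, z 2 = 1 ∧ (∀ j, j ≠ i → P j ⬝ᵥ z < N' j) ∧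
        P i ⬝ᵥ z - N' i = n := by
      obtain ⟨z, hz, hzj⟩ := hmin N' hc' i
      have h1 : 0 ≤ P i ⬝ᵥ z - N' i := by
        obtain ⟨j, hj⟩ := hc'.2 z hz
        by_cases hji : j = i
        · rw [hji] at hj; linarith
        · exact absurd hj (not_le.2 (hzj j hji))
      exact ⟨(P i ⬝ᵥ z - N' i).toNat, z, hz, hzj, (Int.toNat_of_nonneg h1).symm⟩
    obtain ⟨y, hy, hyj, hyn⟩ := Nat.find_spec hA
    have hleast : ∀ z : Fin 3 → ℤ, z 2 = 1 → (∀ j, j ≠ i → P j ⬝ᵥ z < N' j) →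
        P i ⬝ᵥ y ≤ P i ⬝ᵥ z := by
      intro z hz hzj
      have h1 : 0 ≤ P i ⬝ᵥ z - N' i := by
        obtain ⟨j, hj⟩ := hc'.2 z hz
        by_cases hji : j = i
        · rw [hji] at hj; linarith
        · exact absurd hj (not_le.2 (hzj j hji))
      have h2 := Nat.find_min' hA ⟨z, hz, hzj, (Int.toNat_of_nonneg h1).symm⟩
      have h3 : ((Nat.find hA : ℕ) : ℤ) ≤ ((P i ⬝ᵥ z - N' i).toNat : ℤ) := by exact_mod_cast h2
      rw [Int.toNat_of_nonneg h1] at h3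
      linarith
    have hyN : N' i ≤ P i ⬝ᵥ y := by
      have : (0 : ℤ) ≤ ((Nat.find hA : ℕ) : ℤ) := Nat.cast_nonneg _
      linarith
    have hmono : ∀ j, N' j ≤ Function.update N' i (P i ⬝ᵥ y) j := by
      intro j
      by_cases hji : j = i
      · rw [hji, Function.update_self]; exact hyN
      · rw [Function.update_of_ne hji]
    refine ⟨Function.update N' i (P i ⬝ᵥ y), Function.update x i y, ⟨fun j => ?_, fun z hz => ?_⟩, ?_⟩
    · exact (hc'.1 j).trans_le (by exact_mod_cast hmono j)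
    · by_cases h : ∀ j, j ≠ i → P j ⬝ᵥ z < N' j
      · refine ⟨i, ?_⟩
        rw [Function.update_self]
        exact hleast z hz h
      · push Not at h
        obtain ⟨j, hj, hjz⟩ := h
        refine ⟨j, ?_⟩
        rw [Function.update_of_ne hj]
        exact hjz
    · intro a ha
      by_cases hai : a = i
      · subst hai
        rw [Function.update_self]
        refine ⟨hy, by rw [Function.update_self], fun j hj => ?_⟩
        rw [Function.update_of_ne hj]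
        exact hyj j hj
      · have hak : a.val < k := by
          have : a.val ≠ k := fun h => hai (Fin.ext h)
          omega
        obtain ⟨e1, e2, e3⟩ := hx a hak
        rw [Function.update_of_ne hai, Function.update_of_ne hai]
        exact ⟨e1, e2, fun j hj => (e3 j hj).trans_le (hmono j)⟩

theorem tight_family (hK : SBody K) (hW : Supp K W)
    (h1 : ∀ x : Fin 3 → ℤ, toR x ∈ K → x 2 ≠ 1) :
    ∃ (m : ℕ) (P : Fin m → Fin 3 → ℤ) (N : Fin m → ℤ) (x : Fin m → Fin 3 → ℤ),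
      1 ≤ m ∧ m ≤ 4 ∧ (∀ i, W (toR (P i)) < N i) ∧
      (∀ z : Fin 3 → ℤ, z 2 = 1 → ∃ i, N i ≤ P i ⬝ᵥ z) ∧ (∀ i, x i 2 = 1) ∧
      (∀ i, P i ⬝ᵥ x i = N i) ∧ (∀ i j, j ≠ i → P j ⬝ᵥ x i < N j) ∧
      (∀ i j, i ≠ j → ¬ (x i 0 % 2 = x j 0 % 2 ∧ x i 1 % 2 = x j 1 % 2)) := by
  classical
  obtain ⟨m, P, N0, hc0, hmin⟩ := exists_min_cov hK hW h1
  obtain ⟨N, x, hc, hx⟩ := push hc0 hmin m le_rfl
  have hx1 : ∀ i, x i 2 = 1 := fun i => (hx i i.2).1
  have hx2 : ∀ i, P i ⬝ᵥ x i = N i := fun i => (hx i i.2).2.1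
  have hx3 : ∀ i j, j ≠ i → P j ⬝ᵥ x i < N j := fun i => (hx i i.2).2.2
  have hx4 : ∀ i j, P j ⬝ᵥ x i ≤ N j := by
    intro i j
    by_cases h : j = i
    · rw [h, hx2]
    · exact (hx3 i j h).le
  have hmod : ∀ i j, i ≠ j → ¬ (x i 0 % 2 = x j 0 % 2 ∧ x i 1 % 2 = x j 1 % 2) := by
    rintro i j hij ⟨e0, e1⟩
    obtain ⟨a, ha⟩ : ∃ a, x i 0 + x j 0 = 2 * a := ⟨(x i 0 + x j 0) / 2, by omega⟩
    obtain ⟨b, hb⟩ : ∃ b, x i 1 + x j 1 = 2 * b := ⟨(x i 1 + x j 1) / 2, by omega⟩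
    obtain ⟨k, hk⟩ := hc.2 ![a, b, 1] (by simp)
    have h2 : P k ⬝ᵥ x i + P k ⬝ᵥ x j = 2 * (P k ⬝ᵥ ![a, b, 1]) := by
      have e2 : x i 2 + x j 2 = 2 * 1 := by rw [hx1, hx1]; norm_num
      rw [← dotProduct_add]
      have : x i + x j = (2 : ℤ) • (![a, b, 1] : Fin 3 → ℤ) := by
        funext l
        fin_cases l
        · exact ha
        · exact hb
        · exact e2
      rw [this, dotProduct_smul, smul_eq_mul]
    have h3 := hx4 i k
    have h4 := hx4 j k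
    by_cases h : k = i
    · have := hx3 j k (by rw [h]; exact hij)
      linarith
    · have := hx3 i k h
      linarith
  refine ⟨m, P, N, x, ?_, ?_, hc.1, hc.2, hx1, hx2, hx3, hmod⟩
  · obtain ⟨i, -⟩ := hc.2 ![0, 0, 1] (by simp)
    exact Nat.one_le_of_lt i.pos
  · have hinj : Function.Injective
        (fun i : Fin m => (decide (x i 0 % 2 = 1), decide (x i 1 % 2 = 1))) := by
      intro i j hij
      by_contra hne
      apply hmod i j hne
      simp only [Prod.mk.injEq, decide_eq_decide] at hij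
      constructor
      · have := hij.1; omega
      · have := hij.2; omega
    have := Fintype.card_le_of_injective _ hinj
    simpa using this

end Helper67.NP
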